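import Pool.Agent.Lib.Helper67.BA.Virt
import Pool.Agent.Lib.Helper67.BA.FreeLemmas
import Pool.Agent.Lib.Helper67.BA.Monster

/-!
# Homomorphisms from groups which are not large to `C * F(Y)`

Fact V: the image is virtually abelian, or the retraction to `C` is injective on the image.
-/

namespace Pool.Agent.Lib.H61V

open Pool.Agent.Lib.Helper67.BA Subgroup

universe u

/-- `E` is not large: homomorphisms from subgroups of finite index to free groups have
commutative image. -/
def NL (E : Type u) [Group E] : Prop :=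
  ∀ (H : Subgroup E), H.FiniteIndex → ∀ (Z : Type) (f : H →* FreeGroup Z) (x y : H),
    f x * f y = f y * f x

section Free

variable {α β : Type}

/-- homomorphisms which agree on the letters agree -/
theorem hom_eq_of_letters {G : Type} [Group G] (φ ψ : FreeGroup α →* G) (L : List (α × Bool))
    (h : ∀ l ∈ L, φ (FreeGroup.of l.1) = ψ (FreeGroup.of l.1)) :
    φ (FreeGroup.mk L) = ψ (FreeGroup.mk L) := by
  induction L with
  | nil => rw [← FreeGroup.one_eq_mk, map_one, map_one]
  | cons l L ih =>
    have h1 : FreeGroup.mk (l :: L) = FreeGroup.mk [l] * FreeGroup.mk L := by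
      rw [FreeGroup.mul_mk]; rfl
    have h2 : φ (FreeGroup.mk [l]) = ψ (FreeGroup.mk [l]) := by
      obtain ⟨a, b⟩ := l
      have h3 := h (a, b) (by simp)
      cases b
      · have h4 : (FreeGroup.mk [(a, false)]) = (FreeGroup.of a)⁻¹ := by
          rw [FreeGroup.of, FreeGroup.inv_mk]; rfl
        rw [h4, map_inv, map_inv, h3]
      · exact h3
    rw [h1, map_mul, map_mul, h2, ih fun l hl => h l (by simp [hl])]

/-- a map which is injective on the letters is injective -/
theorem map_ne_one (g : α → β) (L : List (α × Bool))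
    (hg : ∀ l ∈ L, ∀ l' ∈ L, g l.1 = g l'.1 → l.1 = l'.1) (hx : FreeGroup.mk L ≠ 1) :
    FreeGroup.map g (FreeGroup.mk L) ≠ 1 := by
  classical
  intro h
  apply hx
  -- a left inverse on the letters
  rcases isEmpty_or_nonempty α with he | ⟨⟨a₀⟩⟩
  · exact Subsingleton.elim _ _
  let r : β → α := fun b => if h : ∃ l ∈ L, g l.1 = b then h.choose.1 else a₀
  have hr : ∀ l ∈ L, r (g l.1) = l.1 := by
    intro l hl
    have h1 : ∃ l' ∈ L, g l'.1 = g l.1 := ⟨l, hl, rfl⟩
    show (if h : ∃ l' ∈ L, g l'.1 = g l.1 then h.choose.1 else a₀) = l.1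
    rw [dif_pos h1]
    exact hg _ h1.choose_spec.1 _ hl h1.choose_spec.2
  have h1 := hom_eq_of_letters ((FreeGroup.map r).comp (FreeGroup.map g)) (MonoidHom.id _) L (by
    intro l hl
    rw [MonoidHom.comp_apply, FreeGroup.map.of, FreeGroup.map.of, hr l hl]
    rfl)
  rw [MonoidHom.comp_apply, h, map_one] at h1
  exact h1.symm

/-- commuting elements: killing one and not the other -/
theorem eq_one_of_comm (φ : FreeGroup α →* FreeGroup β) {x y : FreeGroup α}
    (hxy : x * y = y * x) (h1 : φ x = 1) (h2 : φ y ≠ 1) : x = 1 := by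
  obtain ⟨c, -, hc⟩ := cyclic_of_comm (closure {x, y}) (by
    have h1 : ∀ a ∈ ({x, y} : Set (FreeGroup α)), ∀ b ∈ ({x, y} : Set (FreeGroup α)),
        a * b = b * a := by
      rintro a (rfl | rfl) b (rfl | rfl)
      · rfl
      · exact hxy
      · exact hxy.symm
      · rfl
    intro a ha b hb
    have h2 := Subgroup.closure_induction₂ (p := fun x y _ _ => x * y = y * x)
      (k := ({x, y} : Set (FreeGroup α)))
      (fun x y hx hy => h1 x hx y hy) (fun x _ => by simp) (fun x _ => by simp)
      (fun x y z _ _ _ h1 h2 => (Commute.mul_left (show Commute x z from h1)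
        (show Commute y z from h2)).eq)
      (fun x y z _ _ _ h1 h2 => (Commute.mul_right (show Commute z x from h1)
        (show Commute z y from h2)).eq)
      (fun x y _ _ h => (Commute.inv_left (show Commute x y from h)).eq)
      (fun x y _ _ h => (Commute.inv_right (show Commute x y from h)).eq) ha hb
    exact h2)
  obtain ⟨i, hi⟩ := hc x (subset_closure (by simp))
  obtain ⟨j, hj⟩ := hc y (subset_closure (by simp))
  rw [hi, map_zpow] at h1
  by_cases hi0 : i = 0
  · rw [hi, hi0, zpow_zero]
  · have h3 : φ c = 1 := by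
      apply zpow_left_injective hi0
      simp only
      rw [h1, one_zpow]
    exact absurd (by rw [hj, map_zpow, h3, one_zpow]) h2

end Free

/-- a finite quotient which is injective on a finite set -/
theorem exists_quot {C : Type} [Group C] (hC : RF C) (F : Set C) (hF : F.Finite) :
    ∃ (W : Type) (_ : Group W) (_ : Finite W) (q : C →* W), ∀ a ∈ F, ∀ b ∈ F, q a = q b → a = b := by
  classical
  have h1 : ∀ p : C × C, ∃ N : Subgroup C, N.Normal ∧ N.FiniteIndex ∧
      (p.1 ≠ p.2 → p.1⁻¹ * p.2 ∉ N) := by
    intro p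
    by_cases hp : p.1 = p.2
    · exact ⟨⊤, inferInstance, inferInstance, fun h => absurd hp h⟩
    · obtain ⟨N, h1, h2, h3⟩ := hC (p.1⁻¹ * p.2) (by
        rw [Ne, inv_mul_eq_one]; exact hp)
      exact ⟨N, h1, h2, fun _ => h3⟩
  choose N hN1 hN2 hN3 using h1
  have hfin : Finite (F ×ˢ F : Set (C × C)) := (hF.prod hF).to_subtype
  let M : Subgroup C := ⨅ p : (F ×ˢ F : Set (C × C)), N p
  have hM1 : M.Normal := Subgroup.normal_iInf_normal fun p => hN1 p
  have hM2 : M.FiniteIndex := Subgroup.finiteIndex_iInf fun p => hN2 p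
  refine ⟨C ⧸ M, inferInstance, Subgroup.finite_quotient_of_finiteIndex, QuotientGroup.mk' M, ?_⟩
  intro a ha b hb hab
  by_contra hne
  have h4 : a⁻¹ * b ∈ M := QuotientGroup.eq.1 hab
  exact hN3 (a, b) hne ((Subgroup.mem_iInf.1 h4) ⟨(a, b), ha, hb⟩)

section Main

variable {C Y : Type} [Group C]

/-- reduction of the left part -/
theorem map_vact {W : Type} [Group W] (q : C →* W) (c : C) (hc : q c = 1)
    (x : FreeGroup (C × Y)) :
    FreeGroup.map (Prod.map q id) (vact C Y c x) = FreeGroup.map (Prod.map q id) x := by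
  have h : (FreeGroup.map (Prod.map q id)).comp (vact C Y c).toMonoidHom =
      (FreeGroup.map (Prod.map q (id : Y → Y))) := by
    ext z
    show FreeGroup.map (Prod.map q id) (vact C Y c (FreeGroup.of z)) = _
    rw [vact_of, FreeGroup.map.of, FreeGroup.map.of]
    congr 1
    exact Prod.ext (by simp [hc]) rfl
  exact DFunLike.congr_fun h x

variable {L : Type u} [Group L]

/-- the kernel of the projection to a finite quotient -/
def LW {W : Type} [Group W] (q : C →* W) (f : L →* VV C Y) : Subgroup L :=
  (q.comp (SemidirectProduct.rightHom.comp f)).ker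

theorem mem_LW {W : Type} [Group W] {q : C →* W} {f : L →* VV C Y} {u : L} :
    u ∈ LW q f ↔ q (f u).right = 1 := Iff.rfl

instance LW_fi {W : Type} [Group W] [Finite W] (q : C →* W) (f : L →* VV C Y) :
    (LW q f).FiniteIndex := by
  have : Finite (q.comp (SemidirectProduct.rightHom.comp f)).range := inferInstance
  exact inferInstanceAs (MonoidHom.ker _).FiniteIndex

/-- the left part modulo a quotient -/
def lW {W : Type} [Group W] (q : C →* W) (f : L →* VV C Y) :
    LW q f →* FreeGroup (W × Y) where
  toFun u := FreeGroup.map (Prod.map q id) (f u.1).left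
  map_one' := by
    show FreeGroup.map (Prod.map q id) (f 1).left = 1
    rw [map_one]
    exact map_one _
  map_mul' a b := by
    show FreeGroup.map (Prod.map q id) (f (a.1 * b.1)).left = _
    rw [map_mul, SemidirectProduct.mul_left, map_mul, map_vact q (f a.1).right a.2]

/-- **Fact V.** -/
theorem factV (hC : RF C) (hNL : NL L) (f : L →* VV C Y) :
    (∃ A : Subgroup L, A.FiniteIndex ∧ ∀ x ∈ A, ∀ y ∈ A, f (x * y) = f (y * x)) ∨
      ∀ u, (f u).right = 1 → f u = 1 := by
  classical
  by_cases hinj : ∀ u, (f u).right = 1 → f u = 1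
  · exact Or.inr hinj
  left
  push Not at hinj
  obtain ⟨z, hz1, hz2⟩ := hinj
  -- elements with trivial right part commute
  have hD : ∀ a b : L, (f a).right = 1 → (f b).right = 1 → f (a * b) = f (b * a) := by
    intro a b ha hb
    by_contra hne
    have h1 : f (a * b * (b * a)⁻¹) ≠ 1 := by
      rw [map_mul, map_inv, Ne, mul_inv_eq_one]
      exact hne
    have h2 : (f (a * b * (b * a)⁻¹)).right = 1 := by
      rw [map_mul, map_inv, map_mul, map_mul, SemidirectProduct.mul_right,
        SemidirectProduct.inv_right, SemidirectProduct.mul_right, SemidirectProduct.mul_right,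
        ha, hb]
      simp
    have h3 : (f (a * b * (b * a)⁻¹)).left ≠ 1 := fun h => h1 (SemidirectProduct.ext h h2)
    obtain ⟨w, hw⟩ := Quot.exists_rep (f (a * b * (b * a)⁻¹)).left
    have hw' : FreeGroup.mk w = (f (a * b * (b * a)⁻¹)).left := hw
    obtain ⟨W, _, _, q, hq⟩ := exists_quot hC {c | ∃ l ∈ w, l.1.1 = c}
      ((List.finite_toSet (w.map fun l => l.1.1)).subset (by
        rintro c ⟨l, hl, rfl⟩
        exact List.mem_map.2 ⟨l, hl, rfl⟩))
    have h4 : FreeGroup.map (Prod.map q id) (FreeGroup.mk w) ≠ (1 : FreeGroup (W × Y)) := by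
      apply map_ne_one _ _ _ (by rw [hw']; exact h3)
      intro l hl l' hl' h
      rw [Prod.map_apply', Prod.map_apply', Prod.mk.injEq] at h
      exact Prod.ext (hq _ ⟨l, hl, rfl⟩ _ ⟨l', hl', rfl⟩ h.1) h.2
    have ha' : a ∈ LW q f := by rw [mem_LW, ha, map_one]
    have hb' : b ∈ LW q f := by rw [mem_LW, hb, map_one]
    have h5 := hNL (LW q f) inferInstance (W × Y) (lW q f) ⟨a, ha'⟩ ⟨b, hb'⟩
    apply h4
    rw [hw']
    have h6 : lW q f (⟨a, ha'⟩ * ⟨b, hb'⟩ * (⟨b, hb'⟩ * ⟨a, ha'⟩)⁻¹) = 1 := by
      rw [map_mul, map_inv, map_mul, map_mul, mul_inv_eq_one]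
      exact h5
    exact h6
  -- the quotient
  have hζ : (f z).left ≠ 1 := fun h => hz2 (SemidirectProduct.ext h hz1)
  obtain ⟨w, hw⟩ := Quot.exists_rep (f z).left
  have hw' : FreeGroup.mk w = (f z).left := hw
  obtain ⟨W, _, _, q, hq⟩ := exists_quot hC {c | ∃ l ∈ w, l.1.1 = c}
    ((List.finite_toSet (w.map fun l => l.1.1)).subset (by
      rintro c ⟨l, hl, rfl⟩
      exact List.mem_map.2 ⟨l, hl, rfl⟩))
  have hζW : FreeGroup.map (Prod.map q id) (f z).left ≠ (1 : FreeGroup (W × Y)) := by
    rw [← hw']
    apply map_ne_one _ _ _ (by rw [hw']; exact hζ)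
    intro l hl l' hl' h
    rw [Prod.map_apply', Prod.map_apply', Prod.mk.injEq] at h
    exact Prod.ext (hq _ ⟨l, hl, rfl⟩ _ ⟨l', hl', rfl⟩ h.1) h.2
  -- commutation with `z`
  have hkill : ∀ v : L, (f v).right = 1 →
      FreeGroup.map (Prod.map q id) (f v).left = (1 : FreeGroup (W × Y)) → f v = 1 := by
    intro v hv hv2
    apply SemidirectProduct.ext _ hv
    refine eq_one_of_comm (FreeGroup.map (Prod.map q id)) ?_ hv2 hζW
    have h1 := congrArg SemidirectProduct.left (hD v z hv hz1)
    rw [map_mul, map_mul, SemidirectProduct.mul_left, SemidirectProduct.mul_left, hv, hz1,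
      map_one] at h1
    exact h1
  -- the kernel of the left part modulo the quotient
  have hT : ∀ u : L, q (f u).right = 1 →
      FreeGroup.map (Prod.map q id) (f u).left = (1 : FreeGroup (W × Y)) → f u = 1 := by
    intro u hu hu2
    -- `u` commutes with `z`
    have hz' : z ∈ LW q f := by rw [mem_LW, hz1, map_one]
    have h1 : f (u * z * u⁻¹ * z⁻¹) = 1 := by
      apply hkill
      · simp only [map_mul, map_inv, SemidirectProduct.mul_right, SemidirectProduct.inv_right,
          hz1]
        simp
      · have h2 : lW q f (⟨u, hu⟩ * ⟨z, hz'⟩ * ⟨u, hu⟩⁻¹ * ⟨z, hz'⟩⁻¹) = 1 := by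
          rw [map_mul, map_mul, map_mul, map_inv, map_inv]
          have h3 : lW q f ⟨u, hu⟩ = 1 := hu2
          rw [h3]
          simp
        exact h2
    have h2 : f u * f z = f z * f u := by
      rw [map_mul, map_mul, map_mul, map_inv, map_inv, mul_inv_eq_one, mul_inv_eq_iff_eq_mul] at h1
      exact h1
    have h3 : (f u).left * vact C Y (f u).right (f z).left = (f z).left * (f u).left := by
      have h4 := congrArg SemidirectProduct.left h2
      rw [SemidirectProduct.mul_left, SemidirectProduct.mul_left, hz1, map_one] at h4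
      exact h4
    -- the right part is trivial
    have h4 : (f u).right = 1 := by
      by_contra hc
      set c := (f u).right with hcdef
      let S : Set (C × Y) := {l | ∃ l' ∈ w, l'.1 = l}
      have hdisj : ∀ l ∈ w, (c * l.1.1, l.1.2) ∉ S := by
        rintro l hl ⟨l', hl', h5⟩
        apply hc
        have h6 : q l'.1.1 = q l.1.1 := by
          rw [h5, map_mul, hu, one_mul]
        have h7 := hq _ ⟨l', hl', rfl⟩ _ ⟨l, hl, rfl⟩ h6
        rw [h5] at h7
        exact mul_eq_right.1 h7
      let κ : FreeGroup (C × Y) →* FreeGroup (C × Y) := FreeGroup.lift fun l =>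
        if l ∈ S then 1 else FreeGroup.of l
      have h5 : κ (f z).left = 1 := by
        rw [← hw']
        have h6 := hom_eq_of_letters κ (1 : FreeGroup (C × Y) →* FreeGroup (C × Y)) w (by
          intro l hl
          have h7 : l.1 ∈ S := ⟨l, hl, rfl⟩
          simp [κ, h7])
        rw [h6]
        rfl
      have h6 : κ (vact C Y c (f z).left) = vact C Y c (f z).left := by
        rw [← hw']
        exact hom_eq_of_letters (κ.comp (vact C Y c).toMonoidHom) (vact C Y c).toMonoidHom w (by
          intro l hl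
          show κ (vact C Y c (FreeGroup.of l.1)) = vact C Y c (FreeGroup.of l.1)
          rw [vact_of]
          simp [κ, hdisj l hl])
      have h7 := congrArg κ h3
      rw [map_mul, map_mul, h5, h6, one_mul, mul_eq_left] at h7
      exact hζ ((map_eq_one_iff _ (vact C Y c).injective).1 h7)
    exact hkill u h4 hu2
  refine ⟨LW q f, inferInstance, fun x hx y hy => ?_⟩
  have h1 : f (x * y * (y * x)⁻¹) = 1 := by
    apply hT
    · have h2 : x * y * (y * x)⁻¹ ∈ LW q f :=
        mul_mem (mul_mem hx hy) (inv_mem (mul_mem hy hx))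
      exact h2
    · have h5 := hNL (LW q f) inferInstance (W × Y) (lW q f) ⟨x, hx⟩ ⟨y, hy⟩
      have h6 : lW q f (⟨x, hx⟩ * ⟨y, hy⟩ * (⟨y, hy⟩ * ⟨x, hx⟩)⁻¹) = 1 := by
        rw [map_mul, map_inv, map_mul, map_mul, mul_inv_eq_one]
        exact h5
      exact h6
  rw [map_mul, map_inv, mul_inv_eq_one] at h1
  exact h1

end Main

end Pool.Agent.Lib.H61V
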